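import Mathlib
import Pool.Agent.T2H30.CF.Defs

/-! Families of Hecke characters of weight two on `GL_2` over a number field. -/

set_option autoImplicit false

namespace Pool.Agent.T2H30.CG

open NumberField IsDedekindDomain Pool.Agent.TH861.GL3
open Pool.Agent.T2H30.DN (EulerProduct Unitary)
open Pool.Agent.T2H30.CF (tr)

variable {K : Type} [Field K] [NumberField K] {ι : Type} {S : Finset (HeightOneSpectrum (𝓞 K))}

open scoped Classical in
/-- Properties of a family of cuspidal characters `θ_i` of weight two of the Hecke algebras of `GL_2` over the number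
field `K` (of arbitrary levels) which are not dihedral: `T i v = θ_i(T_v)` and `D i v = θ_i(S_v)` for the primes `v ∉ S`
(`S` contains the primes dividing the levels); the character `θ_i` belongs to a unitary cuspidal automorphic
representation `π_i` with Satake parameters `α i v`, the roots of the Hecke polynomial `X² - T i v X + D i v N v` being
`√(N v) α i v j`. The representations `A²_i = Sym² π_i ⊗ ω_i⁻¹` and `A⁴_i = Sym⁴ π_i ⊗ ω_i⁻²` are cuspidal, and
`A²_i ≅ A²_j` if and only if `A⁴_i ≅ A⁴_j` if and only if `π_i` and `π_j` are twists of each other by a character, if and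
only if `θ_i(T_v)² / θ_i(S_v) = θ_j(T_v)² / θ_j(S_v)` for all `v ∉ S`. -/
structure Family (T D : ι → PL S → ℂ) (α : ι → PL S → Fin 2 → ℂ) : Prop where
  /-- the Satake parameters -/
  trace : ∀ i v, T i v = ((Real.sqrt (qq v.1 : ℝ) : ℝ) : ℂ) * (α i v 0 + α i v 1)
  det : ∀ i v, D i v = α i v 0 * α i v 1
  /-- the local components are unitary -/
  unitary : ∀ i v, Unitary (α i v)
  /-- the `L`-functions of the `A²_i` and the `A⁴_i` have no pole -/
  lift : ∀ i b, EulerProduct (fun x : PL S × ℕ => tr b (α i x.1) (x.2 + 1)) 0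
  /-- the Rankin-Selberg `L`-functions of the pairs of the `A²_i`, `A⁴_i`: a simple pole for isomorphic ones -/
  pair : ∀ i j b b', EulerProduct (fun x : PL S × ℕ => tr b (α i x.1) (x.2 + 1) * tr b' (α j x.1) (x.2 + 1))
    (if b = b' ∧ ∀ v, T i v ^ 2 / D i v = T j v ^ 2 / D j v then 1 else 0)

/-- The characters `θ_i` are pairwise not twists of each other (see `Family`). -/
def TwistInequivalent (T D : ι → PL S → ℂ) : Prop :=
  ∀ i j, i ≠ j → ∃ v, T i v ^ 2 / D i v ≠ T j v ^ 2 / D j v

end Pool.Agent.T2H30.CG
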