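import Mathlib
import Pool.Agent.T2H30.CF.Norm2
import Pool.Agent.T2H30.CG.Defs

/-! Families of Hecke characters of weight two: the law of large numbers. -/

set_option autoImplicit false

open Set Filter Topology NumberField IsDedekindDomain
open Pool.Agent.TH861.GL3
open Pool.Agent.T2H30.DN
open Pool.Agent.T2H30.CF (tr f2 cont_sum upper_closed)

namespace Pool.Agent.T2H30.CG

section finite

variable {K : Type} [Field K] [NumberField K] {ι : Type} [Fintype ι]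
  {S : Finset (HeightOneSpectrum (𝓞 K))} {T D : ι → PL S → ℂ} {α : ι → PL S → Fin 2 → ℂ}

open scoped Classical in
theorem cont_sq (h : Family T D α) (hd : TwistInequivalent T D) (a b l : ℝ) :
    Cont (fun x : PL S × ℕ => (∑ i, f2 a b (α i x.1) (x.2 + 1) + l) ^ 2)
      ((a ^ 2 + b ^ 2) * Fintype.card ι + l ^ 2) := by
  have h1 : ∀ i, Cont (fun x : PL S × ℕ => f2 a b (α i x.1) (x.2 + 1)) 0 := by
    intro i
    have := ((h.lift i false).cont.smul a).add ((h.lift i true).cont.smul b)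
    simpa [f2] using this
  have h2 : ∀ i j, Cont (fun x : PL S × ℕ => f2 a b (α i x.1) (x.2 + 1) * f2 a b (α j x.1) (x.2 + 1))
      ((a ^ 2 + b ^ 2) * (if i = j then (1 : ℝ) else 0)) := by
    intro i j
    have h3 := ((((h.pair i j false false).cont.smul (a ^ 2)).add ((h.pair i j true false).cont.smul (a * b))).add
      ((h.pair i j false true).cont.smul (a * b))).add ((h.pair i j true true).cont.smul (b ^ 2))
    convert h3 using 1
    · funext x
      unfold f2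
      ring
    · by_cases h4 : i = j
      · subst h4
        rw [if_pos rfl, if_pos ⟨rfl, fun v => rfl⟩, if_neg fun h => Bool.noConfusion h.1,
          if_neg fun h => Bool.noConfusion h.1, if_pos ⟨rfl, fun v => rfl⟩]
        push_cast
        ring
      · obtain ⟨v, hv⟩ := hd i j h4
        rw [if_neg h4, if_neg fun h => hv (h.2 v), if_neg fun h => hv (h.2 v), if_neg fun h => hv (h.2 v),
          if_neg fun h => hv (h.2 v)]
        push_cast
        ring
  have h5 := cont_sum Finset.univ fun i (_ : i ∈ Finset.univ) => cont_sum Finset.univ fun j (_ : j ∈ Finset.univ) => h2 i j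
  have h6 := cont_sum Finset.univ fun i (_ : i ∈ Finset.univ) => h1 i
  have h7 := (h5.add (h6.smul (2 * l))).add ((cont_one (Pool.Agent.H484R2.continuation K) S).smul (l ^ 2))
  convert h7 using 1
  · funext x
    rw [add_sq, sq (∑ i, f2 a b (α i x.1) (x.2 + 1)), Finset.sum_mul_sum]
    ring
  · simp only [Finset.sum_const_zero, mul_zero, add_zero, mul_one, ← Finset.mul_sum, Finset.sum_ite_eq,
      Finset.mem_univ, if_true, Finset.sum_const, Finset.card_univ, nsmul_eq_mul]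
    ring

/-- Cantelli's inequality for the means -/
theorem cantelli [Nonempty ι] (h : Family T D α) (hd : TwistInequivalent T D) {a b ε : ℝ} (hab : 0 < a ^ 2 + b ^ 2)
    (hε : 0 < ε) :
    UpperDensityLE (fun v : PL S => ε * Fintype.card ι ≤ ∑ i, f2 a b (α i v) 1)
      ((a ^ 2 + b ^ 2) / ((a ^ 2 + b ^ 2) + Fintype.card ι * ε ^ 2)) := by
  classical
  set n : ℝ := (Fintype.card ι : ℝ) with hn
  have hn0 : 0 < n := by
    have : 0 < Fintype.card ι := Fintype.card_pos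
    rw [hn]
    exact_mod_cast this
  set V : ℝ := a ^ 2 + b ^ 2 with hV
  set l : ℝ := V / ε with hl
  have hl0 : 0 < l := by positivity
  have h1 := (cont_sq h hd a b l).tendsto fun x => by positivity
  rw [← hV, ← hn] at h1
  have h2 := upper_of_tendsto (fun x => by positivity) h1 (κ := (ε * n + l) ^ 2) (by positivity)
    (P := fun v : PL S => ε * n ≤ ∑ i, f2 a b (α i v) 1) ?_
  · convert h2 using 1
    rw [hl]
    have : V + n * ε ^ 2 ≠ 0 := by positivity
    field_simp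
    ring
  · intro v hv
    simp only [zero_add]
    exact pow_le_pow_left₀ (by positivity) (by linarith) 2

/-- Chebyshev's inequality for the means -/
theorem cheb [Nonempty ι] (h : Family T D α) (hd : TwistInequivalent T D) (a b : ℝ) {ε : ℝ} (hε : 0 < ε) :
    UpperDensityLE (fun v : PL S => ε * Fintype.card ι ≤ |∑ i, f2 a b (α i v) 1|)
      ((a ^ 2 + b ^ 2) / (Fintype.card ι * ε ^ 2)) := by
  classical
  set n : ℝ := (Fintype.card ι : ℝ) with hn
  have hn0 : 0 < n := by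
    have : 0 < Fintype.card ι := Fintype.card_pos
    rw [hn]
    exact_mod_cast this
  have h1 := (cont_sq h hd a b 0).tendsto fun x => by positivity
  rw [← hn] at h1
  have h2 := upper_of_tendsto (fun x => by positivity) h1 (κ := (ε * n) ^ 2) (by positivity)
    (P := fun v : PL S => ε * n ≤ |∑ i, f2 a b (α i v) 1|) ?_
  · convert h2 using 1
    field_simp
    ring
  · intro v hv
    simp only [zero_add, add_zero]
    rw [← sq_abs (∑ i, f2 a b (α i v) 1)]
    exact pow_le_pow_left₀ (by positivity) hv 2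

/-- `|T_i v|² / N v` -/
noncomputable def yy (α : ι → PL S → Fin 2 → ℂ) (i : ι) (v : PL S) : ℝ := ‖α i v 0 + α i v 1‖ ^ 2

omit [Fintype ι] in
theorem norm_T (h : Family T D α) (i : ι) (v : PL S) : ‖T i v‖ ^ 2 = yy α i v * (qq v.1 : ℝ) := by
  rw [h.trace, norm_mul, Complex.norm_real, Real.norm_of_nonneg (Real.sqrt_nonneg _), mul_pow,
    Real.sq_sqrt (Nat.cast_nonneg _), mul_comm]
  rfl

omit [Fintype ι] in
theorem f2_eq (a b : ℝ) (i : ι) (v : PL S) :
    f2 a b (α i v) 1 = a * (yy α i v - 1) + b * (yy α i v ^ 2 - 3 * yy α i v + 1) := by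
  unfold f2 tr yy
  simp

omit [Fintype ι] in
theorem viol (h : Family T D α) {i : ι} {v : PL S} (hv : 2 * Real.sqrt (qq v.1 : ℝ) < ‖T i v‖) :
    4 < yy α i v := by
  have h5 := pow_lt_pow_left₀ hv (by positivity) (two_ne_zero)
  rw [mul_pow, Real.sq_sqrt (Nat.cast_nonneg _), norm_T h] at h5
  have h6 : (0 : ℝ) < qq v.1 := by
    have := two_le_qq v.1
    positivity
  have h7 : (2 : ℝ) ^ 2 < yy α i v := lt_of_mul_lt_mul_right h5 h6.le
  linarith

/-- many large values -/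
theorem main [Nonempty ι] (h : Family T D α) (hd : TwistInequivalent T D) {z c : ℝ} (hz : 0 < z)
    (hc : 1 < c * (1 + z ^ 2)) :
    UpperDensityLE (fun v : PL S => c * Fintype.card ι ≤
      (({i : ι | (1 + z) * (qq v.1 : ℝ) ≤ ‖T i v‖ ^ 2}.ncard : ℕ) : ℝ))
      (2 * z ^ 2 * (z ^ 2 + 2 * z + 2) / (2 * z ^ 2 * (z ^ 2 + 2 * z + 2) +
        Fintype.card ι * ((1 + z ^ 2) * (c * (1 + z ^ 2) - 1)) ^ 2)) := by
  classical
  set n : ℝ := (Fintype.card ι : ℝ) with hn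
  have hn0 : 0 < n := by
    have : 0 < Fintype.card ι := Fintype.card_pos
    rw [hn]
    exact_mod_cast this
  set w : ℝ := c * (1 + z ^ 2) - 1 with hw
  have hw0 : 0 < w := by linarith
  set ε : ℝ := (1 + z ^ 2) / z ^ 2 * w with hε
  have hε0 : 0 < ε := by positivity
  have h1 := cantelli h hd (a := 1 + 2 / z) (b := 1) (by positivity) hε0
  rw [← hn] at h1
  have e : ((1 + 2 / z) ^ 2 + 1 ^ 2) / (((1 + 2 / z) ^ 2 + 1 ^ 2) + n * ε ^ 2) =
      2 * z ^ 2 * (z ^ 2 + 2 * z + 2) / (2 * z ^ 2 * (z ^ 2 + 2 * z + 2) + n * ((1 + z ^ 2) * w) ^ 2) := by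
    rw [hε]
    rw [div_eq_div_iff (by positivity) (by positivity)]
    field_simp
    ring
  rw [e] at h1
  refine h1.mono fun v hv => ?_
  have h2 : ∀ i, f2 (1 + 2 / z) 1 (α i v) 1 = (yy α i v - (1 - 1 / z)) ^ 2 - (1 / z ^ 2 + 1) := by
    intro i
    rw [f2_eq]
    field_simp
    ring
  simp_rw [h2]
  rw [Finset.sum_sub_distrib, Finset.sum_const, Finset.card_univ, nsmul_eq_mul, ← hn]
  have h4 : (({i : ι | (1 + z) * (qq v.1 : ℝ) ≤ ‖T i v‖ ^ 2}.ncard : ℕ) : ℝ) * (z + 1 / z) ^ 2 ≤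
      ∑ i, (yy α i v - (1 - 1 / z)) ^ 2 := by
    rw [Set.ncard_eq_toFinset_card', ← nsmul_eq_mul, ← Finset.sum_const]
    refine (Finset.sum_le_sum fun i hi => ?_).trans (Finset.sum_le_sum_of_subset_of_nonneg (Finset.subset_univ _)
      fun i _ _ => by positivity)
    have h5 : (1 + z) * (qq v.1 : ℝ) ≤ ‖T i v‖ ^ 2 := by simpa using hi
    rw [norm_T h] at h5
    have h6 : (0 : ℝ) < qq v.1 := by
      have := two_le_qq v.1
      positivity
    have h7 : 1 + z ≤ yy α i v := le_of_mul_le_mul_right h5 h6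
    exact pow_le_pow_left₀ (by positivity) (by linarith) 2
  have h5 : c * n * (z + 1 / z) ^ 2 ≤ ∑ i, (yy α i v - (1 - 1 / z)) ^ 2 :=
    (mul_le_mul_of_nonneg_right hv (by positivity)).trans h4
  have e3 : ε * n = c * n * (z + 1 / z) ^ 2 - n * (1 / z ^ 2 + 1) := by
    rw [hε, hw]
    field_simp
    ring
  rw [e3]
  linarith

/-- nine tenths of the characters -/
theorem nine [Nonempty ι] (h : Family T D α) (hd : TwistInequivalent T D) {c : ℝ} (hc : 1 / 10 < c) :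
    UpperDensityLE (fun v : PL S => c * Fintype.card ι ≤
      (({i : ι | 2 * Real.sqrt (qq v.1 : ℝ) < ‖T i v‖}.ncard : ℕ) : ℝ))
      (306 / (306 + 100 * Fintype.card ι * (10 * c - 1) ^ 2)) := by
  have h3 := main h hd (z := 3) (c := c) (by norm_num) (by linarith)
  have e : (2 * 3 ^ 2 * (3 ^ 2 + 2 * 3 + 2) / (2 * 3 ^ 2 * (3 ^ 2 + 2 * 3 + 2) +
        Fintype.card ι * ((1 + 3 ^ 2) * (c * (1 + 3 ^ 2) - 1)) ^ 2) : ℝ) =
      306 / (306 + 100 * Fintype.card ι * (10 * c - 1) ^ 2) := by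
    norm_num
    ring
  rw [e] at h3
  refine h3.mono fun v hv => hv.trans ?_
  have h4 : {i : ι | 2 * Real.sqrt (qq v.1 : ℝ) < ‖T i v‖} ⊆
      {i : ι | (1 + 3) * (qq v.1 : ℝ) ≤ ‖T i v‖ ^ 2} := by
    intro i hi
    simp only [Set.mem_setOf_eq] at hi ⊢
    have h5 := pow_le_pow_left₀ (by positivity) hi.le 2
    rw [mul_pow, Real.sq_sqrt (Nat.cast_nonneg _)] at h5
    linarith
  exact_mod_cast Set.ncard_le_ncard h4 (Set.toFinite _)

/-- all characters -/
theorem all_viol [Nonempty ι] (h : Family T D α) (hd : TwistInequivalent T D) :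
    UpperDensityLE (fun v : PL S => ∀ i, 2 * Real.sqrt (qq v.1 : ℝ) < ‖T i v‖)
      (1 / (1 + 34 * Fintype.card ι)) := by
  have h1 := cantelli h hd (a := 3 / 5) (b := 1) (ε := 34 / 5) (by positivity) (by norm_num)
  have e : ((3 / 5) ^ 2 + 1 ^ 2) / (((3 / 5) ^ 2 + 1 ^ 2) + Fintype.card ι * (34 / 5) ^ 2) =
      (1 / (1 + 34 * Fintype.card ι) : ℝ) := by
    rw [div_eq_div_iff (by positivity) (by positivity)]
    ring
  rw [e] at h1
  refine h1.mono fun v hv => ?_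
  have h2 : ∀ i ∈ (Finset.univ : Finset ι), (34 / 5 : ℝ) ≤ f2 (3 / 5) 1 (α i v) 1 := by
    intro i _
    have h3 := viol h (hv i)
    rw [f2_eq]
    nlinarith
  have h3 := Finset.card_nsmul_le_sum _ _ _ h2
  rw [Finset.card_univ, nsmul_eq_mul] at h3
  linarith

/-- the mean of the squares -/
theorem mean_sq [Nonempty ι] (h : Family T D α) (hd : TwistInequivalent T D) {ε : ℝ} (hε : 0 < ε) :
    UpperDensityLE (fun v : PL S => ε * Fintype.card ι * (qq v.1 : ℝ) ≤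
      |∑ i, ‖T i v‖ ^ 2 - Fintype.card ι * (qq v.1 : ℝ)|) (1 / (Fintype.card ι * ε ^ 2)) := by
  have h1 := cheb h hd 1 0 hε
  have e : ((1 : ℝ) ^ 2 + 0 ^ 2) = 1 := by norm_num
  rw [e] at h1
  refine h1.mono fun v hv => ?_
  have h6 : (0 : ℝ) < qq v.1 := by
    have := two_le_qq v.1
    positivity
  have h2 : ∑ i, ‖T i v‖ ^ 2 - Fintype.card ι * (qq v.1 : ℝ) = (∑ i, f2 1 0 (α i v) 1) * (qq v.1 : ℝ) := by
    simp_rw [norm_T h, f2_eq]
    rw [← Finset.sum_mul]
    simp only [zero_mul, add_zero, one_mul]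
    rw [Finset.sum_sub_distrib, Finset.sum_const, Finset.card_univ, nsmul_eq_mul]
    ring
  rw [h2, abs_mul, abs_of_pos h6] at hv
  exact le_of_mul_le_mul_right hv h6

/-- the mean of the fourth powers -/
theorem mean_four [Nonempty ι] (h : Family T D α) (hd : TwistInequivalent T D) {ε : ℝ} (hε : 0 < ε) :
    UpperDensityLE (fun v : PL S => ε * Fintype.card ι * (qq v.1 : ℝ) ^ 2 ≤
      |∑ i, ‖T i v‖ ^ 4 - 2 * Fintype.card ι * (qq v.1 : ℝ) ^ 2|) (10 / (Fintype.card ι * ε ^ 2)) := by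
  have h1 := cheb h hd 3 1 hε
  have e : ((3 : ℝ) ^ 2 + 1 ^ 2) = 10 := by norm_num
  rw [e] at h1
  refine h1.mono fun v hv => ?_
  have h6 : (0 : ℝ) < (qq v.1 : ℝ) ^ 2 := by
    have := two_le_qq v.1
    positivity
  have h2 : ∑ i, ‖T i v‖ ^ 4 - 2 * Fintype.card ι * (qq v.1 : ℝ) ^ 2 =
      (∑ i, f2 3 1 (α i v) 1) * (qq v.1 : ℝ) ^ 2 := by
    have h3 : ∀ i, ‖T i v‖ ^ 4 = (yy α i v) ^ 2 * (qq v.1 : ℝ) ^ 2 := by
      intro i
      have : ‖T i v‖ ^ 4 = (‖T i v‖ ^ 2) ^ 2 := by ring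
      rw [this, norm_T h, mul_pow]
    have h4 : ∀ i, f2 3 1 (α i v) 1 = yy α i v ^ 2 - 2 := by
      intro i
      rw [f2_eq]
      ring
    simp_rw [h3, h4]
    rw [← Finset.sum_mul, Finset.sum_sub_distrib, Finset.sum_const, Finset.card_univ, nsmul_eq_mul]
    ring
  rw [h2, abs_mul, abs_of_pos h6] at hv
  exact le_of_mul_le_mul_right hv h6

end finite

section infinite

variable {K : Type} [Field K] [NumberField K]

/-- finitely many primes do not matter -/
theorem transport {S : Finset (HeightOneSpectrum (𝓞 K))} {P : PL (K := K) ∅ → Prop} {Q : PL S → Prop} {δ : ℝ}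
    (h : UpperDensityLE Q δ) (hPQ : ∀ v : PL S, P ⟨v.1, by simp⟩ → Q v) : UpperDensityLE P δ := by
  intro η hη ε hε
  obtain ⟨X₀, hX₀⟩ := h η hη ε hε
  refine ⟨max X₀ (∑ v ∈ S, (qq v : ℝ)), fun X hX => le_trans ?_ (hX₀ X ((le_max_left _ _).trans hX))⟩
  have h1 : (Subtype.val '' {v : PL (K := K) ∅ | X < (qq v.1 : ℝ) ∧ (qq v.1 : ℝ) ≤ (1 + η) * X ∧ P v}) ⊆
      (Subtype.val '' {v : PL S | X < (qq v.1 : ℝ) ∧ (qq v.1 : ℝ) ≤ (1 + η) * X ∧ Q v}) := by
    rintro _ ⟨v, hv, rfl⟩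
    have h2 : v.1 ∉ S := by
      intro hvS
      have h3 : (qq v.1 : ℝ) ≤ ∑ v ∈ S, (qq v : ℝ) :=
        Finset.single_le_sum (f := fun v => (qq v : ℝ)) (fun w _ => Nat.cast_nonneg _) hvS
      have h4 := (le_max_right _ _).trans hX
      linarith [hv.1]
    exact ⟨⟨v.1, h2⟩, ⟨hv.1, hv.2.1, hPQ ⟨v.1, h2⟩ hv.2.2⟩, rfl⟩
  rw [← Set.ncard_image_of_injective _ Subtype.val_injective,
    ← Set.ncard_image_of_injective {v : PL S | X < (qq v.1 : ℝ) ∧ (qq v.1 : ℝ) ≤ (1 + η) * X ∧ Q v}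
      Subtype.val_injective]
  exact_mod_cast Set.ncard_le_ncard h1 ((IS_finite Q X η).image _)

variable {S : ℕ → Finset (HeightOneSpectrum (𝓞 K))} {T D : ℕ → HeightOneSpectrum (𝓞 K) → ℂ}
  {α : ℕ → HeightOneSpectrum (𝓞 K) → Fin 2 → ℂ}

theorem seq_main (hS : Monotone S)
    (h : ∀ m, Family (S := S m) (fun (i : Fin m) v => T i v.1) (fun i v => D i v.1) (fun i v => α i v.1))
    (hd : ∀ i j, i ≠ j → {v | T i v ^ 2 / D i v ≠ T j v ^ 2 / D j v}.Infinite) {c : ℝ} (hc : 1 / 10 < c) (M : ℕ) :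
    UpperDensityLE (fun v : PL (K := K) ∅ => ∀ m, M ≤ m → c * m ≤
      (({i : ℕ | i < m ∧ (v.1 ∈ S i ∨ 2 * Real.sqrt (qq v.1 : ℝ) < ‖T i v.1‖)}.ncard : ℕ) : ℝ)) 0 := by
  refine upper_closed fun ε hε => ?_
  have hw : 0 < 100 * (10 * c - 1) ^ 2 := by
    have : 0 < 10 * c - 1 := by linarith
    positivity
  obtain ⟨m₀, hm₀⟩ := exists_nat_gt (306 / (ε * (100 * (10 * c - 1) ^ 2)))
  set m : ℕ := max M (m₀ + 1) with hm
  have hm1 : 0 < m := lt_of_lt_of_le (Nat.succ_pos _) (le_max_right _ _)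
  haveI : Nonempty (Fin m) := ⟨⟨0, hm1⟩⟩
  have hdm : TwistInequivalent (S := S m) (fun (i : Fin m) v => T i v.1) (fun i v => D i v.1) := by
    intro i j hij
    have h1 := hd i j fun e => hij (Fin.ext e)
    obtain ⟨v, hv, hvS⟩ := h1.exists_notMem_finset (S m)
    exact ⟨⟨v, hvS⟩, hv⟩
  have h1 := nine (h m) hdm hc
  refine ⟨306 / (306 + 100 * Fintype.card (Fin m) * (10 * c - 1) ^ 2), ?_, transport h1 fun v hv => ?_⟩
  · rw [zero_add, Fintype.card_fin, div_le_iff₀ (by positivity)]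
    rw [div_lt_iff₀ (by positivity)] at hm₀
    have h2 : (m₀ : ℝ) ≤ m := by
      have : m₀ ≤ m := (Nat.le_succ _).trans (le_max_right _ _)
      exact_mod_cast this
    have h3 : (m₀ : ℝ) * (ε * (100 * (10 * c - 1) ^ 2)) ≤ m * (ε * (100 * (10 * c - 1) ^ 2)) :=
      mul_le_mul_of_nonneg_right h2 (by positivity)
    nlinarith
  · have h2 := hv m (le_max_left _ _)
    rw [Fintype.card_fin]
    refine h2.trans ?_
    have h3 : {i : ℕ | i < m ∧ (v.1 ∈ S i ∨ 2 * Real.sqrt (qq v.1 : ℝ) < ‖T i v.1‖)} ⊆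
        (Fin.val '' {i : Fin m | 2 * Real.sqrt (qq v.1 : ℝ) < ‖T i v.1‖}) := by
      rintro i ⟨him, hi⟩
      refine ⟨⟨i, him⟩, ?_, rfl⟩
      rcases hi with hi | hi
      · exact absurd (hS him.le hi) v.2
      · exact hi
    have h4 := Set.ncard_le_ncard h3 (Set.toFinite _)
    rw [Set.ncard_image_of_injective _ Fin.val_injective] at h4
    exact_mod_cast h4

theorem seq_many (hS : Monotone S)
    (h : ∀ m, Family (S := S m) (fun (i : Fin m) v => T i v.1) (fun i v => D i v.1) (fun i v => α i v.1))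
    (hd : ∀ i j, i ≠ j → {v | T i v ^ 2 / D i v ≠ T j v ^ 2 / D j v}.Infinite) (k : ℕ) :
    UpperDensityLE (fun v : PL (K := K) ∅ =>
      {i : ℕ | v.1 ∉ S i ∧ ‖T i v.1‖ ≤ 2 * Real.sqrt (qq v.1 : ℝ)}.encard < k) 0 := by
  refine (seq_main hS h hd (c := 1 / 2) (by norm_num) (2 * k)).mono fun v hv m hm => ?_
  set A : Set ℕ := {i : ℕ | v.1 ∉ S i ∧ ‖T i v.1‖ ≤ 2 * Real.sqrt (qq v.1 : ℝ)} with hA
  have hfin : A.Finite := by
    rw [← Set.encard_lt_top_iff]
    exact hv.trans (by simp)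
  have hAk : A.ncard < k := by
    rw [← hfin.cast_ncard_eq] at hv
    exact_mod_cast hv
  have h1 : {i : ℕ | i < m} ⊆ {i : ℕ | i < m ∧ (v.1 ∈ S i ∨ 2 * Real.sqrt (qq v.1 : ℝ) < ‖T i v.1‖)} ∪ A := by
    intro i hi
    by_cases h2 : v.1 ∈ S i
    · exact Or.inl ⟨hi, Or.inl h2⟩
    · by_cases h3 : 2 * Real.sqrt (qq v.1 : ℝ) < ‖T i v.1‖
      · exact Or.inl ⟨hi, Or.inr h3⟩
      · exact Or.inr ⟨h2, not_lt.1 h3⟩
  have hB : {i : ℕ | i < m ∧ (v.1 ∈ S i ∨ 2 * Real.sqrt (qq v.1 : ℝ) < ‖T i v.1‖)}.Finite :=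
    (Set.finite_lt_nat m).subset fun i hi => hi.1
  have h2 := (Set.ncard_le_ncard h1 (hB.union hfin)).trans (Set.ncard_union_le _ _)
  have h3 : {i : ℕ | i < m}.ncard = m := by
    rw [show {i : ℕ | i < m} = ((Finset.range m : Finset ℕ) : Set ℕ) by ext; simp, Set.ncard_coe_finset,
      Finset.card_range]
  rw [h3] at h2
  have h4 : (m : ℝ) ≤ (({i : ℕ | i < m ∧ (v.1 ∈ S i ∨ 2 * Real.sqrt (qq v.1 : ℝ) < ‖T i v.1‖)}.ncard : ℕ) : ℝ) +
      (A.ncard : ℝ) := by exact_mod_cast h2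
  have h5 : (A.ncard : ℝ) ≤ k := by exact_mod_cast hAk.le
  have h6 : (2 : ℝ) * k ≤ m := by exact_mod_cast hm
  linarith

end infinite

end Pool.Agent.T2H30.CG
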